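import Mathlib

/-!
# The cover of a finite group by flows on its Cayley graph

`Cov G m` consists of the pairs `(v, g)` of a `ℤ/m`-valued function `v` on the edges of the Cayley
graph of `G` (the edge `(x, i)` leads from `x` to `x i`) and an element `g` such that `v` is a flow
from `1` to `g`.  (This is the quotient of the free group `F` on the set `G` by `[R, R] R ^ m`,
`R` the kernel of `F → G`, by the Magnus embedding, or rather a group containing it.)
-/

set_option autoImplicit false

namespace Pool.Agent.Q216.IGP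

/-- Pairs of a flow from `1` to `g` modulo `m` on the Cayley graph of `G`, and the element `g`. -/
@[ext]
structure Cov (G : Type*) [Group G] [Fintype G] (m : ℕ) where
  /-- the flow -/
  v : G → G → ZMod m
  /-- the end point -/
  g : G
  bd : ∀ f : G → ZMod m, ∑ x, ∑ i, v x i * (f (x * i) - f x) = f g - f 1

namespace Cov

variable {G : Type*} [Group G] [Fintype G] {m : ℕ}

instance : Mul (Cov G m) where
  mul a b :=
    { v := fun x i => a.v x i + b.v (a.g⁻¹ * x) i
      g := a.g * b.g
      bd := by
        intro f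
        have h1 : ∑ x, ∑ i, b.v (a.g⁻¹ * x) i * (f (x * i) - f x) = f (a.g * b.g) - f a.g := by
          have h2 := b.bd (fun y => f (a.g * y))
          simp only [mul_one] at h2
          rw [← h2]
          rw [← Equiv.sum_comp (Equiv.mulLeft a.g)]
          refine Finset.sum_congr rfl fun x _ => Finset.sum_congr rfl fun i _ => ?_
          simp [mul_assoc]
        simp only [add_mul, Finset.sum_add_distrib]
        rw [a.bd f, h1]
        ring }

@[simp] theorem mul_v (a b : Cov G m) (x i : G) : (a * b).v x i = a.v x i + b.v (a.g⁻¹ * x) i := rfl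

@[simp] theorem mul_g (a b : Cov G m) : (a * b).g = a.g * b.g := rfl

instance : One (Cov G m) where
  one :=
    { v := fun _ _ => 0
      g := 1
      bd := by intro f; simp }

@[simp] theorem one_v (x i : G) : (1 : Cov G m).v x i = 0 := rfl

@[simp] theorem one_g : (1 : Cov G m).g = 1 := rfl

instance : Inv (Cov G m) where
  inv a :=
    { v := fun x i => - a.v (a.g * x) i
      g := a.g⁻¹
      bd := by
        intro f
        have h2 := a.bd (fun y => f (a.g⁻¹ * y))
        simp only [mul_one, inv_mul_cancel] at h2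
        rw [← neg_inj, neg_sub, ← h2, ← Finset.sum_neg_distrib,
          ← Equiv.sum_comp (Equiv.mulLeft a.g) (fun x => ∑ i, a.v x i * (f (a.g⁻¹ * (x * i)) - f (a.g⁻¹ * x)))]
        refine Finset.sum_congr rfl fun x _ => ?_
        rw [← Finset.sum_neg_distrib]
        refine Finset.sum_congr rfl fun i _ => ?_
        simp [mul_assoc] }

@[simp] theorem inv_v (a : Cov G m) (x i : G) : (a⁻¹).v x i = - a.v (a.g * x) i := rfl

@[simp] theorem inv_g (a : Cov G m) : (a⁻¹).g = a.g⁻¹ := rfl

instance : Group (Cov G m) where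
  mul_assoc a b c := by
    ext x i
    · simp [mul_assoc, add_assoc]
    · simp [mul_assoc]
  one_mul a := by
    ext x i <;> simp
  mul_one a := by
    ext x i <;> simp
  inv_mul_cancel a := by
    ext x i <;> simp

/-- The projection `(v, g) ↦ g`. -/
def proj : Cov G m →* G where
  toFun a := a.g
  map_one' := rfl
  map_mul' _ _ := rfl

@[simp] theorem proj_apply (a : Cov G m) : proj a = a.g := rfl

theorem proj_surjective : Function.Surjective (proj : Cov G m →* G) := by
  classical
  intro g
  refine ⟨⟨fun x i => if x = 1 ∧ i = g then 1 else 0, g, ?_⟩, rfl⟩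
  intro f
  rw [Finset.sum_eq_single 1]
  · rw [Finset.sum_eq_single g]
    · simp
    · intro i _ hi
      simp [hi]
    · intro h
      exact absurd (Finset.mem_univ _) h
  · intro x _ hx
    simp [hx]
  · intro h
    exact absurd (Finset.mem_univ _) h

instance [NeZero m] : Finite (Cov G m) := by
  have h : Function.Injective (fun a : Cov G m => (a.v, a.g)) := by
    intro a b hab
    simp only [Prod.mk.injEq] at hab
    exact Cov.ext hab.1 hab.2
  exact Finite.of_injective _ h

/-- The kernel of the projection is abelian. -/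
theorem commute_of_proj {a b : Cov G m} (ha : proj a = 1) (hb : proj b = 1) : a * b = b * a := by
  simp only [proj_apply] at ha hb
  ext x i
  · simp [ha, hb, add_comm]
  · simp [ha, hb]

theorem pow_g (a : Cov G m) (n : ℕ) : (a ^ n).g = a.g ^ n := by
  have := map_pow (proj : Cov G m →* G) a n
  simpa using this

theorem pow_v (a : Cov G m) (n : ℕ) (x i : G) :
    (a ^ n).v x i = ∑ j ∈ Finset.range n, a.v ((a.g ^ j)⁻¹ * x) i := by
  induction n generalizing x with
  | zero => simp
  | succ n ih =>
    rw [pow_succ, mul_v, ih, pow_g, Finset.sum_range_succ]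

/-- The kernel of the projection has exponent dividing `m`. -/
theorem pow_eq_one_of_proj {a : Cov G m} (ha : proj a = 1) : a ^ m = 1 := by
  simp only [proj_apply] at ha
  ext x i
  · rw [pow_v]
    simp [ha]
  · rw [pow_g]
    simp [ha]

omit [Fintype G] in
/-- Left translation by an element has a height function modulo its order. -/
theorem exists_height (g : G) :
    ∃ l : G → ZMod (orderOf g), ∀ x, l (g * x) = l x + 1 := by
  classical
  let s : Setoid G := QuotientGroup.rightRel (Subgroup.zpowers g)
  have hx : ∀ x : G, ∃ z : ℤ, g ^ z * (Quotient.out (Quotient.mk s x)) = x := by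
    intro x
    have h1 : s.r (Quotient.out (Quotient.mk s x)) x := Quotient.exact (Quotient.out_eq _)
    have h2 : x * (Quotient.out (Quotient.mk s x))⁻¹ ∈ Subgroup.zpowers g :=
      (QuotientGroup.rightRel_apply).1 h1
    obtain ⟨z, hz⟩ := h2
    refine ⟨z, ?_⟩
    simp only at hz
    rw [hz]
    simp
  choose z hz using hx
  refine ⟨fun x => (z x : ZMod (orderOf g)), fun x => ?_⟩
  have h1 : Quotient.mk s (g * x) = Quotient.mk s x := by
    apply Quotient.sound
    change s.r (g * x) x
    rw [QuotientGroup.rightRel_apply]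
    simp [Subgroup.mem_zpowers]
  have h2 := hz (g * x)
  rw [h1] at h2
  have h3 : g ^ (z (g * x)) * (Quotient.out (Quotient.mk s x)) =
      g ^ (z x + 1) * (Quotient.out (Quotient.mk s x)) := by
    rw [h2, add_comm, zpow_add, zpow_one, mul_assoc, hz x]
  have h4 : g ^ (z (g * x)) = g ^ (z x + 1) := mul_right_cancel h3
  have h5 : (z (g * x)) ≡ (z x + 1) [ZMOD (orderOf g)] := zpow_eq_zpow_iff_modEq.1 h4
  have h6 := (ZMod.intCast_eq_intCast_iff _ _ _).2 h5
  simpa using h6

/-- If `r` is a prime divisor of the order of `g` and of `m`, then the `(orderOf g)`-th power of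
every element above `g` is a flow some value of which is not divisible by `r`. -/
theorem exists_not_dvd [NeZero m] (a : Cov G m) {r : ℕ} (hr : r.Prime) (h : r ∣ orderOf a.g)
    (hm : r ∣ m) : ∃ x i, ¬ (r ∣ ((a ^ orderOf a.g).v x i).val) := by
  classical
  by_contra hcon
  push Not at hcon
  have hpos : 0 < orderOf a.g := orderOf_pos _
  have : NeZero (orderOf a.g) := ⟨hpos.ne'⟩
  have : Fact r.Prime := ⟨hr⟩
  set φ : ZMod m →+* ZMod r := ZMod.castHom hm (ZMod r) with hφ
  have h0 : ∀ x i, φ ((a ^ orderOf a.g).v x i) = 0 := by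
    intro x i
    have h1 := hcon x i
    rw [← ZMod.natCast_eq_zero_iff] at h1
    rw [← h1, hφ, ZMod.castHom_apply, ZMod.natCast_val]
  obtain ⟨l, hl⟩ := exists_height a.g
  set ψ : ZMod (orderOf a.g) →+* ZMod r := ZMod.castHom h (ZMod r) with hψ
  have hl' : ∀ (j : ℕ) (x : G), l (a.g ^ j * x) = l x + j := by
    intro j
    induction j with
    | zero => intro x; simp
    | succ j ih =>
      intro x
      rw [pow_succ', mul_assoc, hl, ih]
      push_cast
      ring
  -- the indicator function of the points of height zero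
  have hone : ∀ x : G, ∑ j ∈ Finset.range (orderOf a.g),
      (if l (a.g ^ j * x) = 0 then (1 : ZMod r) else 0) = 1 := by
    intro x
    rw [Finset.sum_eq_single ((-(l x)).val)]
    · rw [if_pos]
      rw [hl', ZMod.natCast_zmod_val]
      ring
    · intro j hj hne
      rw [if_neg]
      intro h1
      rw [hl'] at h1
      apply hne
      have h2 : (j : ZMod (orderOf a.g)) = -(l x) := by
        rw [eq_neg_iff_add_eq_zero, add_comm]
        exact h1
      rw [← h2, ZMod.val_natCast, Nat.mod_eq_of_lt (Finset.mem_range.1 hj)]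
    · intro h1
      exact absurd (Finset.mem_range.2 (ZMod.val_lt _)) h1
  -- the jump of an edge
  set κ : G → G → ZMod r := fun x i => ψ (l (x * i)) - ψ (l x) with hκ
  have hκinv : ∀ (j : ℕ) (x i : G), κ (a.g ^ j * x) i = κ x i := by
    intro j x i
    simp only [hκ]
    rw [mul_assoc, hl', hl']
    simp
  -- the flow moves the height by one
  have hflow : ∑ x, ∑ i, φ (a.v x i) * κ x i = 1 := by
    have hsurj : Function.Surjective φ := ZMod.castHom_surjective hm
    choose f hf using fun x : G => hsurj (ψ (l x))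
    have h1 := congrArg φ (a.bd f)
    simp only [map_sum, map_mul, map_sub, hf] at h1
    rw [hκ]
    simp only
    rw [h1]
    have h2 := hl 1
    rw [mul_one] at h2
    rw [h2, map_add, map_one]
    ring
  have hzero : ∑ x, ∑ i, φ (a.v x i) * κ x i = 0 := by
    have h1 : ∑ x, ∑ i, φ (a.v x i) * κ x i =
        ∑ j ∈ Finset.range (orderOf a.g), ∑ x, ∑ i, φ (a.v x i) *
          ((if l (a.g ^ j * x) = 0 then (1 : ZMod r) else 0) * κ x i) := by
      symm
      rw [Finset.sum_comm]
      refine Finset.sum_congr rfl fun x _ => ?_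
      rw [Finset.sum_comm]
      refine Finset.sum_congr rfl fun i _ => ?_
      rw [← Finset.mul_sum, ← Finset.sum_mul, hone, one_mul]
    have h2 : ∀ j ∈ Finset.range (orderOf a.g), ∑ x, ∑ i, φ (a.v x i) *
          ((if l (a.g ^ j * x) = 0 then (1 : ZMod r) else 0) * κ x i) =
        ∑ x, ∑ i, φ (a.v ((a.g ^ j)⁻¹ * x) i) *
          ((if l x = 0 then (1 : ZMod r) else 0) * κ x i) := by
      intro j _
      rw [← Equiv.sum_comp (Equiv.mulLeft (a.g ^ j))
        (fun x => ∑ i, φ (a.v ((a.g ^ j)⁻¹ * x) i) * ((if l x = 0 then (1 : ZMod r) else 0) * κ x i))]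
      refine Finset.sum_congr rfl fun x _ => Finset.sum_congr rfl fun i _ => ?_
      rw [Equiv.coe_mulLeft, hκinv, inv_mul_cancel_left]
    rw [h1, Finset.sum_congr rfl h2, Finset.sum_comm]
    refine Finset.sum_eq_zero fun x _ => ?_
    rw [Finset.sum_comm]
    refine Finset.sum_eq_zero fun i _ => ?_
    rw [← Finset.sum_mul, ← map_sum, ← pow_v, h0, zero_mul]
  rw [hflow] at hzero
  exact one_ne_zero hzero

/-- No nontrivial element of `G` is covered by an element of the same order. -/
theorem g_eq_one_of_pow_orderOf [NeZero m] (hm : ∀ r, r.Prime → r ∣ Nat.card G → r ∣ m)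
    (a : Cov G m) (ha : a ^ orderOf a.g = 1) : a.g = 1 := by
  by_contra hne
  have h1 : orderOf a.g ≠ 1 := fun h => hne (orderOf_eq_one_iff.1 h)
  obtain ⟨r, hr, hrd⟩ := Nat.exists_prime_and_dvd h1
  obtain ⟨x, i, hx⟩ := exists_not_dvd a hr hrd
    (hm r hr (hrd.trans (orderOf_dvd_natCard a.g)))
  apply hx
  rw [ha]
  simp

/-- Involutions of the cover map to the identity. -/
theorem g_eq_one_of_sq [NeZero m] (hm : ∀ r, r.Prime → r ∣ Nat.card G → r ∣ m)
    (a : Cov G m) (ha : a ^ 2 = 1) : a.g = 1 := by
  by_contra hne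
  have h1 : a.g ^ 2 = 1 := by rw [← pow_g, ha, one_g]
  have h2 : orderOf a.g = 2 := orderOf_eq_prime h1 hne
  exact hne (g_eq_one_of_pow_orderOf hm a (by rw [h2]; exact ha))

/-- The main property of the cover. -/
theorem dvd_of_conj_eq_pow [NeZero m] (a b : Cov G m) (q : ℕ) (hab : b * a * b⁻¹ = a ^ q) {r k : ℕ}
    (hr : r.Prime) (h : r ∣ orderOf a.g) (hk0 : k ≠ 0) (hk : r ^ k ∣ m) :
    r ^ k ∣ q ^ Nat.card G - 1 := by
  obtain ⟨x, i, hx⟩ := exists_not_dvd a hr h ((dvd_pow_self r hk0).trans hk)
  set c := a ^ orderOf a.g with hc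
  have hcg : c.g = 1 := by rw [hc, pow_g, pow_orderOf_eq_one]
  have h1 : b * c * b⁻¹ = c ^ q := by
    rw [hc, ← conj_pow, hab, ← pow_mul, ← pow_mul, mul_comm]
  have h2 : ∀ y j, c.v (b.g⁻¹ * y) j = q * c.v y j := by
    intro y j
    have h3 := congrArg (fun t : Cov G m => t.v y j) h1
    simp only [mul_v, inv_v, mul_g, hcg, mul_one, pow_v, one_pow, inv_one, one_mul,
      Finset.sum_const, Finset.card_range, nsmul_eq_mul, mul_inv_cancel_left] at h3
    rw [← h3]
    ring
  have h4 : ∀ (n : ℕ) (y j), c.v ((b.g ^ n)⁻¹ * y) j = (q : ZMod m) ^ n * c.v y j := by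
    intro n
    induction n with
    | zero => intro y j; simp
    | succ n ih =>
      intro y j
      rw [pow_succ, mul_inv_rev, mul_assoc, h2, ih, pow_succ]
      ring
  have h5 := h4 (Nat.card G) x i
  rw [pow_card_eq_one', inv_one, one_mul] at h5
  have hq : 0 < q ^ Nat.card G ∨ q = 0 := by
    rcases Nat.eq_zero_or_pos q with h | h
    · exact Or.inr h
    · exact Or.inl (pow_pos h _)
  rcases hq with hq | hq
  · have h6 : (((q ^ Nat.card G - 1) * (c.v x i).val : ℕ) : ZMod m) = 0 := by
      rw [Nat.cast_mul, ZMod.natCast_zmod_val, Nat.cast_sub hq, Nat.cast_pow, Nat.cast_one, sub_mul,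
        one_mul, ← h5, sub_self]
    rw [ZMod.natCast_eq_zero_iff] at h6
    have h7 : r ^ k ∣ (q ^ Nat.card G - 1) * (c.v x i).val := hk.trans h6
    have h8 : Nat.Coprime (r ^ k) (c.v x i).val :=
      Nat.Coprime.pow_left k ((Nat.Prime.coprime_iff_not_dvd hr).2 hx)
    exact h8.dvd_of_dvd_mul_right h7
  · subst hq
    rw [zero_pow Nat.card_pos.ne']
    exact dvd_zero _

end Cov

end Pool.Agent.Q216.IGP
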