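import Mathlib
import Pool.Agent.Q216.IGP.Cover

/-!
# Metacyclic subgroups of the cover of a finite group
-/

set_option autoImplicit false

namespace Pool.Agent.Q216.IGP

/-- A proper subgroup of a finite `r`-group is contained in the kernel of a nontrivial homomorphism
to the group of order `r`. -/
theorem exists_hom_of_ne_top {P : Type*} [Group P] [Finite P] {r : ℕ} [hr : Fact r.Prime]
    (hP : IsPGroup r P) (H : Subgroup P) (hH : H ≠ ⊤) :
    ∃ l : P →* Multiplicative (ZMod r), (∀ x ∈ H, l x = 1) ∧ ∃ x, l x ≠ 1 := by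
  classical
  obtain ⟨M, hM, hHM⟩ := (eq_top_or_exists_le_coatom H).resolve_left hH
  have hnil : Group.IsNilpotent P := hP.isNilpotent
  have hnorm : M.Normal := by
    have h1 : NormalizerCondition P := Group.normalizerCondition_of_isNilpotent
    exact Subgroup.NormalizerCondition.normal_of_coatom M h1 hM
  -- the index is `r`
  have hidx : M.index = r := by
    obtain ⟨n, hn⟩ := hP.index M
    have hn0 : n ≠ 0 := by
      rintro rfl
      rw [pow_zero] at hn
      exact hM.1 (Subgroup.index_eq_one.mp hn)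
    -- a subgroup of order `r` of the quotient
    have hcard : r ∣ Nat.card (P ⧸ M) := by
      change r ∣ M.index
      rw [hn]
      exact dvd_pow_self r hn0
    obtain ⟨x, hx⟩ := exists_prime_orderOf_dvd_card' r hcard
    set C : Subgroup P := (Subgroup.zpowers x).comap (QuotientGroup.mk' M) with hC
    have hMC : M < C := by
      refine lt_of_le_of_ne ?_ ?_
      · intro y hy
        rw [hC, Subgroup.mem_comap]
        have : QuotientGroup.mk' M y = 1 := by simpa using hy
        rw [this]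
        exact one_mem _
      · intro h
        obtain ⟨y, hy⟩ := QuotientGroup.mk'_surjective M x
        have h1 : y ∈ C := by
          rw [hC, Subgroup.mem_comap, hy]
          exact Subgroup.mem_zpowers x
        rw [← h] at h1
        have h2 : x = 1 := by
          rw [← hy]
          simpa using h1
        rw [h2, orderOf_one] at hx
        exact hr.out.one_lt.ne hx
    have hCtop : C = ⊤ := hM.2 C hMC
    have h3 : Subgroup.zpowers x = ⊤ := by
      rw [eq_top_iff]
      intro z _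
      obtain ⟨y, hy⟩ := QuotientGroup.mk'_surjective M z
      have h1 : y ∈ C := by rw [hCtop]; trivial
      rw [hC, Subgroup.mem_comap, hy] at h1
      exact h1
    have h4 : Nat.card (P ⧸ M) = r := by
      rw [← hx, ← Nat.card_zpowers, h3]
      exact (Subgroup.card_top).symm
    exact h4
  have hcardQ : Nat.card (P ⧸ M) = r := hidx
  have hcardZ : Nat.card (Multiplicative (ZMod r)) = r := by
    rw [Nat.card_congr Multiplicative.toAdd, Nat.card_zmod]
  let e : (P ⧸ M) ≃* Multiplicative (ZMod r) := mulEquivOfPrimeCardEq hcardQ hcardZ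
  refine ⟨e.toMonoidHom.comp (QuotientGroup.mk' M), ?_, ?_⟩
  · intro x hx
    have h1 : QuotientGroup.mk' M x = 1 := by simpa using hHM hx
    rw [MonoidHom.comp_apply, h1, map_one]
  · obtain ⟨x, hx⟩ : ∃ x, x ∉ M := by
      by_contra hcon
      push Not at hcon
      exact hM.1 (eq_top_iff.mpr fun x _ => hcon x)
    refine ⟨x, fun h => hx ?_⟩
    rw [MonoidHom.comp_apply] at h
    have h1 : QuotientGroup.mk' M x = 1 := e.injective (by simpa using h)
    simpa using h1

namespace Cov

variable {G : Type*} [Group G] {m : ℕ}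

/-- Height functions of homomorphisms on subgroups. -/
theorem exists_height_hom (R : Subgroup G) {r : ℕ} (l : R →* Multiplicative (ZMod r)) :
    ∃ h : G → ZMod r, h 1 = 0 ∧ ∀ (ρ : R) (x : G), h (ρ * x) = (l ρ).toAdd + h x := by
  classical
  let s : Setoid G := QuotientGroup.rightRel R
  have hx : ∀ x : G, ∃ z : R, (z : G) * (Quotient.out (Quotient.mk s x)) = x := by
    intro x
    have h1 : s.r (Quotient.out (Quotient.mk s x)) x := Quotient.exact (Quotient.out_eq _)
    have h2 : x * (Quotient.out (Quotient.mk s x))⁻¹ ∈ R :=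
      (QuotientGroup.rightRel_apply).1 h1
    exact ⟨⟨_, h2⟩, by simp⟩
  choose z hz using hx
  refine ⟨fun x => (l (z x)).toAdd - (l (z 1)).toAdd, by simp, fun ρ x => ?_⟩
  have h1 : Quotient.mk s ((ρ : G) * x) = Quotient.mk s x := by
    apply Quotient.sound
    change s.r ((ρ : G) * x) x
    rw [QuotientGroup.rightRel_apply]
    simp
  have h2 := hz ((ρ : G) * x)
  rw [h1] at h2
  have h3 : (z ((ρ : G) * x) : G) = ((ρ * z x : R) : G) := by
    have h4 : (z ((ρ : G) * x) : G) * (Quotient.out (Quotient.mk s x)) =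
        ((ρ * z x : R) : G) * (Quotient.out (Quotient.mk s x)) := by
      rw [h2, Subgroup.coe_mul, mul_assoc, hz x]
    exact mul_right_cancel h4
  have h5 : z ((ρ : G) * x) = ρ * z x := Subtype.ext h3
  simp only [h5, map_mul, toAdd_mul]
  ring

variable [Fintype G]

/-- The boundary condition after reduction modulo a divisor `r` of `m`. -/
theorem bd_cast {r : ℕ} (hr : r ∣ m) (a : Cov G m) (f : G → ZMod r) :
    ∑ x, ∑ i, ZMod.castHom hr (ZMod r) (a.v x i) * (f (x * i) - f x) = f a.g - f 1 := by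
  have hsurj : Function.Surjective (ZMod.castHom hr (ZMod r)) := ZMod.castHom_surjective hr
  choose f' hf using fun x : G => hsurj (f x)
  have h1 := congrArg (ZMod.castHom hr (ZMod r)) (a.bd f')
  simp only [map_sum, map_mul, map_sub, hf] at h1
  exact h1

/-- Reduction modulo a divisor of `m`. -/
def red {m' : ℕ} (h : m' ∣ m) : Cov G m →* Cov G m' where
  toFun a :=
    { v := fun x i => ZMod.castHom h (ZMod m') (a.v x i)
      g := a.g
      bd := fun f => bd_cast h a f }
  map_one' := by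
    ext x i
    · simp
    · simp
  map_mul' a b := by
    ext x i
    · exact map_add (ZMod.castHom h (ZMod m')) _ _
    · rfl

@[simp] theorem red_g {m' : ℕ} (h : m' ∣ m) (a : Cov G m) : (red h a).g = a.g := rfl

/-- **Step 1.**  If `b a b⁻¹ = a ^ s` and the image of `a` is detected by a homomorphism to the group
of order `r`, then `s` is congruent to `1` modulo the divisors of `m` which are powers of `r`. -/
theorem modEq_one_of_conj (a b : Cov G m) (s : ℕ) (hab : b * a * b⁻¹ = a ^ s)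
    (R : Subgroup G) (ha : a.g ∈ R) (hb : b.g ∈ R) {r t : ℕ} (hr : r.Prime) (hrm : r ∣ m)
    (ht : r ^ t ∣ m) (l : R →* Multiplicative (ZMod r)) (hl : l ⟨a.g, ha⟩ ≠ 1) :
    s ≡ 1 [MOD r ^ t] := by
  classical
  have hrf : Fact r.Prime := ⟨hr⟩
  obtain ⟨h, h1, hh⟩ := exists_height_hom R l
  -- the invariant cochain
  set c : G → G → ZMod m := fun x i => (((h (x * i) - h x).val : ℕ) : ZMod m) with hc
  have hcinv : ∀ ρ ∈ R, ∀ x i, c (ρ * x) i = c x i := by
    intro ρ hρ x i
    have e1 := hh ⟨ρ, hρ⟩ (x * i)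
    have e2 := hh ⟨ρ, hρ⟩ x
    simp only [hc]
    rw [mul_assoc]
    simp only at e1 e2
    rw [e1, e2, add_sub_add_left_eq_sub]
  set Λ : Cov G m → ZMod m := fun a => ∑ x, ∑ i, a.v x i * c x i with hΛ
  have hΛmul : ∀ a b : Cov G m, a.g ∈ R → Λ (a * b) = Λ a + Λ b := by
    intro a b ha
    simp only [hΛ, mul_v, add_mul, Finset.sum_add_distrib]
    congr 1
    rw [← Equiv.sum_comp (Equiv.mulLeft a.g)]
    refine Finset.sum_congr rfl fun x _ => Finset.sum_congr rfl fun i _ => ?_
    rw [Equiv.coe_mulLeft, inv_mul_cancel_left, hcinv a.g ha]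
  have hΛ1 : Λ 1 = 0 := by simp [hΛ]
  have hΛinv : ∀ a : Cov G m, a.g ∈ R → Λ a⁻¹ = - Λ a := by
    intro a ha
    have e := hΛmul a a⁻¹ ha
    rw [mul_inv_cancel, hΛ1] at e
    rw [eq_neg_iff_add_eq_zero, add_comm]
    exact e.symm
  have hΛpow : ∀ (a : Cov G m), a.g ∈ R → ∀ n : ℕ, Λ (a ^ n) = n * Λ a := by
    intro a ha n
    induction n with
    | zero => simp [hΛ1]
    | succ n ih =>
      rw [pow_succ', hΛmul a _ ha, ih]
      push_cast
      ring
  have hconj : Λ (b * a * b⁻¹) = Λ a := by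
    rw [hΛmul (b * a) _ (by simpa using R.mul_mem hb ha), hΛmul b a hb, hΛinv b hb]
    ring
  rw [hab, hΛpow a ha] at hconj
  -- `Λ a` reduces to `l a`
  have hred : ZMod.castHom hrm (ZMod r) (Λ a) = (l ⟨a.g, ha⟩).toAdd := by
    have e1 := bd_cast hrm a h
    have e2 := hh ⟨a.g, ha⟩ 1
    simp only [mul_one] at e2
    rw [e2, h1] at e1
    simp only [add_zero, sub_zero] at e1
    rw [← e1]
    simp only [hΛ, map_sum, map_mul]
    refine Finset.sum_congr rfl fun x _ => Finset.sum_congr rfl fun i _ => ?_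
    congr 1
    simp only [hc]
    rw [map_natCast, ZMod.natCast_zmod_val]
  -- reduce modulo `r ^ t`
  rcases Nat.eq_zero_or_pos t with ht0 | ht0
  · subst ht0
    rw [pow_zero]
    exact Nat.modEq_one
  have : NeZero (r ^ t) := ⟨(pow_pos hr.pos t).ne'⟩
  set u : ZMod (r ^ t) := ZMod.castHom ht (ZMod (r ^ t)) (Λ a) with hu
  have e3 : ((s : ZMod (r ^ t)) - 1) * u = 0 := by
    have e4 := congrArg (ZMod.castHom ht (ZMod (r ^ t))) hconj
    rw [map_mul, map_natCast] at e4
    rw [sub_mul, one_mul, hu, e4, sub_self]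
  have hrt : r ∣ r ^ t := dvd_pow_self r ht0.ne'
  have e5 : ZMod.castHom hrt (ZMod r) u ≠ 0 := by
    rw [hu, ← RingHom.comp_apply]
    have e6 : (ZMod.castHom hrt (ZMod r)).comp (ZMod.castHom ht (ZMod (r ^ t))) =
        ZMod.castHom hrm (ZMod r) := Subsingleton.elim _ _
    rw [e6, hred]
    intro h0
    exact hl h0
  have e7 : IsUnit u := by
    have e8 : u = ((u.val : ℕ) : ZMod (r ^ t)) := (ZMod.natCast_zmod_val u).symm
    rw [e8, ZMod.isUnit_iff_coprime]
    refine Nat.Coprime.pow_right t ?_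
    rw [Nat.coprime_comm, Nat.Prime.coprime_iff_not_dvd hr]
    intro h0
    apply e5
    rw [e8, map_natCast]
    exact (ZMod.natCast_eq_zero_iff _ _).mpr h0
  have e9 : (s : ZMod (r ^ t)) - 1 = 0 := by
    rcases e7 with ⟨w, hw⟩
    rw [← hw] at e3
    simpa using e3
  have e10 : (s : ZMod (r ^ t)) = ((1 : ℕ) : ZMod (r ^ t)) := by
    rw [Nat.cast_one]
    exact sub_eq_zero.mp e9
  exact (ZMod.natCast_eq_natCast_iff _ _ _).mp e10

/-- **Step 2.**  Commuting elements have dependent images in every quotient of type `(r, r)` of a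
subgroup of `G` (Heisenberg lift). -/
theorem det_eq_zero_of_commute (a b : Cov G m) (hab : a * b = b * a)
    (R : Subgroup G) (ha : a.g ∈ R) (hb : b.g ∈ R) {r : ℕ} (hrm : r ∣ m)
    (l k : R →* Multiplicative (ZMod r)) :
    (l ⟨a.g, ha⟩).toAdd * (k ⟨b.g, hb⟩).toAdd = (l ⟨b.g, hb⟩).toAdd * (k ⟨a.g, ha⟩).toAdd := by
  classical
  obtain ⟨h, h1, hh⟩ := exists_height_hom R l
  obtain ⟨j, j1, hj⟩ := exists_height_hom R k
  set φ : ZMod m →+* ZMod r := ZMod.castHom hrm (ZMod r) with hφ
  set Θ : Cov G m → ZMod r := fun a => ∑ x, ∑ i, φ (a.v x i) * (h x * (j (x * i) - j x)) with hΘ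
  have hmul : ∀ (a b : Cov G m) (ha : a.g ∈ R) (hb : b.g ∈ R),
      Θ (a * b) = Θ a + Θ b + (l ⟨a.g, ha⟩).toAdd * (k ⟨b.g, hb⟩).toAdd := by
    intro a b ha hb
    simp only [hΘ, mul_v, map_add, add_mul, Finset.sum_add_distrib]
    rw [add_assoc]
    congr 1
    rw [← Equiv.sum_comp (Equiv.mulLeft a.g)]
    have e1 : ∀ x i, φ (b.v (a.g⁻¹ * (Equiv.mulLeft a.g x)) i) * (h (Equiv.mulLeft a.g x) *
        (j (Equiv.mulLeft a.g x * i) - j (Equiv.mulLeft a.g x))) =
        φ (b.v x i) * (h x * (j (x * i) - j x)) +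
          (l ⟨a.g, ha⟩).toAdd * (φ (b.v x i) * (j (x * i) - j x)) := by
      intro x i
      have e2 := hh ⟨a.g, ha⟩ x
      have e3 := hj ⟨a.g, ha⟩ x
      have e4 := hj ⟨a.g, ha⟩ (x * i)
      simp only at e2 e3 e4
      rw [Equiv.coe_mulLeft, inv_mul_cancel_left, mul_assoc a.g x i, e2, e3, e4]
      ring
    simp only [e1, Finset.sum_add_distrib, ← Finset.mul_sum]
    congr 2
    have e5 := bd_cast hrm b j
    have e6 := hj ⟨b.g, hb⟩ 1
    simp only [mul_one] at e6
    rw [e6, j1] at e5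
    simp only [add_zero, sub_zero] at e5
    exact e5
  have e1 := hmul a b ha hb
  have e2 := hmul b a hb ha
  rw [hab, e2] at e1
  have e3 : Θ a + Θ b + (l ⟨a.g, ha⟩).toAdd * (k ⟨b.g, hb⟩).toAdd =
      Θ a + Θ b + (l ⟨b.g, hb⟩).toAdd * (k ⟨a.g, ha⟩).toAdd := by
    rw [← e1]; ring
  exact add_left_cancel e3

/-- **Main lemma.**  A metacyclic `r`-subgroup of `Cov G (|G| ^ 2)` has cyclic image in `G`. -/
theorem isCyclic_closure_of_conj (hm : m = Nat.card G ^ 2) (a b : Cov G m) (s : ℕ)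
    (hab : b * a * b⁻¹ = a ^ s) {r : ℕ} (hr : r.Prime)
    (hp : IsPGroup r (Subgroup.closure ({a, b} : Set (Cov G m)))) :
    IsCyclic (Subgroup.closure ({a.g, b.g} : Set G)) := by
  classical
  have hrf : Fact r.Prime := ⟨hr⟩
  set S : Subgroup (Cov G m) := Subgroup.closure {a, b} with hS
  set R : Subgroup G := Subgroup.closure {a.g, b.g} with hR
  have hSR : S.map proj = R := by
    rw [hS, hR, MonoidHom.map_closure, Set.image_pair]
    rfl
  have hRp : IsPGroup r R := by
    rw [← hSR]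
    exact hp.map proj
  by_contra hcyc
  have haS : a ∈ S := Subgroup.subset_closure (by simp)
  have haR : a.g ∈ R := Subgroup.subset_closure (by simp)
  have hbR : b.g ∈ R := Subgroup.subset_closure (by simp)
  have hrG : r ∣ Nat.card G := by
    obtain ⟨n, hn⟩ := IsPGroup.iff_card.mp hRp
    have hn0 : n ≠ 0 := by
      rintro rfl
      rw [pow_zero] at hn
      apply hcyc
      have : Subsingleton R := (Nat.card_eq_one_iff_unique.mp hn).1
      exact isCyclic_of_subsingleton
    exact (dvd_pow_self r hn0).trans (hn ▸ Subgroup.card_subgroup_dvd_card R)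
  -- the whole of `R` is generated by the two elements
  have hgen : ∀ (l : R →* Multiplicative (ZMod r)), l ⟨a.g, haR⟩ = 1 → l ⟨b.g, hbR⟩ = 1 →
      ∀ x, l x = 1 := by
    intro l h1 h2 x
    have h3 : Subgroup.closure ({a.g, b.g} : Set G) ≤ (l.ker.map R.subtype) := by
      rw [Subgroup.closure_le]
      intro y hy
      rcases hy with rfl | hy
      · exact ⟨⟨a.g, haR⟩, h1, rfl⟩
      · rw [Set.mem_singleton_iff] at hy
        subst hy
        exact ⟨⟨b.g, hbR⟩, h2, rfl⟩
    obtain ⟨y, hy, hyx⟩ := h3 x.2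
    have : y = x := Subtype.ext hyx
    rw [← this]
    exact hy
  obtain ⟨l, hl1, x, hx⟩ := exists_hom_of_ne_top hRp (Subgroup.zpowers (⟨b.g, hbR⟩ : R)) (by
    intro h
    exact hcyc (isCyclic_iff_exists_zpowers_eq_top.mpr ⟨_, h⟩))
  obtain ⟨k, hk1, y, hy⟩ := exists_hom_of_ne_top hRp (Subgroup.zpowers (⟨a.g, haR⟩ : R)) (by
    intro h
    exact hcyc (isCyclic_iff_exists_zpowers_eq_top.mpr ⟨_, h⟩))
  have hlb : l ⟨b.g, hbR⟩ = 1 := hl1 _ (Subgroup.mem_zpowers _)
  have hla : l ⟨a.g, haR⟩ ≠ 1 := fun h => hx (hgen l h hlb x)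
  have hka : k ⟨a.g, haR⟩ = 1 := hk1 _ (Subgroup.mem_zpowers _)
  have hkb : k ⟨b.g, hbR⟩ ≠ 1 := fun h => hy (hgen k hka h y)
  have hm0 : m ≠ 0 := by
    rw [hm]
    exact pow_ne_zero _ Nat.card_pos.ne'
  have hm' : Nat.card G ∣ m := by
    rw [hm]
    exact dvd_pow_self _ two_ne_zero
  have hne' : NeZero (Nat.card G) := ⟨Nat.card_pos.ne'⟩
  -- step 1
  have hs : s ≡ 1 [MOD r ^ m.factorization r] :=
    modEq_one_of_conj a b s hab R haR hbR hr (hrG.trans hm') (Nat.ordProj_dvd m r) l hla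
  -- the order of the image of `a` modulo `|G|`
  set a' : Cov G (Nat.card G) := red hm' a with ha'
  set b' : Cov G (Nat.card G) := red hm' b with hb'
  have hab' : b' * a' * b'⁻¹ = a' ^ s := by
    rw [ha', hb', ← map_pow, ← hab, map_mul, map_mul, map_inv]
  have ho1 : orderOf a' ∣ m := by
    apply orderOf_dvd_of_pow_eq_one
    have h1 : proj (a' ^ Nat.card G) = 1 := by
      rw [map_pow, pow_card_eq_one']
    rw [hm, pow_two, pow_mul]
    exact pow_eq_one_of_proj h1
  have ho2 : ∃ n, orderOf a' ∣ r ^ n := by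
    obtain ⟨n, hn⟩ := hp ⟨a, haS⟩
    refine ⟨n, orderOf_dvd_of_pow_eq_one ?_⟩
    have h1 : a ^ r ^ n = 1 := by
      have := congrArg Subtype.val hn
      simpa using this
    rw [ha', ← map_pow, h1, map_one]
  obtain ⟨n, hn⟩ := ho2
  obtain ⟨i, _, hi⟩ := (Nat.dvd_prime_pow hr).mp hn
  have ho3 : orderOf a' ∣ r ^ m.factorization r := by
    rw [hi] at ho1 ⊢
    exact pow_dvd_pow r ((hr.pow_dvd_iff_le_factorization hm0).mp ho1)
  have hcomm : b' * a' = a' * b' := by
    have h1 : a' ^ s = a' ^ 1 := pow_eq_pow_iff_modEq.mpr (hs.of_dvd ho3)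
    rw [h1, pow_one] at hab'
    exact mul_inv_eq_iff_eq_mul.mp hab'
  -- step 2
  have h1 := det_eq_zero_of_commute a' b' hcomm.symm R haR hbR hrG l k
  have h2 : (l ⟨b'.g, hbR⟩).toAdd = 0 := congrArg Multiplicative.toAdd hlb
  rw [h2, zero_mul] at h1
  rcases mul_eq_zero.mp h1 with h3 | h3
  · exact hla h3
  · exact hkb h3

end Cov

end Pool.Agent.Q216.IGP
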