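import Mathlib

/-!
# Tame inertia and Frobenius in a finite group acting on a Dedekind domain
-/

set_option autoImplicit false

namespace Pool.Agent.Q216.IGP

variable {S D : Type*} [CommRing S] [Group D] [MulSemiringAction D S]

theorem smul_mem_pow {P : Ideal S} (hD : ∀ (d : D) (x : S), x ∈ P → d • x ∈ P) (d : D) (n : ℕ) :
    ∀ x ∈ P ^ n, d • x ∈ P ^ n := by
  induction n with
  | zero => intro x _; simp
  | succ n ih =>
    intro x hx
    rw [pow_succ] at hx
    refine Submodule.mul_induction_on hx ?_ ?_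
    · intro a ha b hb
      rw [smul_mul', pow_succ]
      exact Ideal.mul_mem_mul (ih a ha) (hD d b hb)
    · intro a b ha hb
      rw [smul_add]
      exact Ideal.add_mem _ ha hb

theorem smul_sub_mem_pow_succ {P : Ideal S} (hD : ∀ (d : D) (x : S), x ∈ P → d • x ∈ P) (τ : D)
    (h1 : ∀ x, τ • x - x ∈ P) (h2 : ∀ y ∈ P, τ • y - y ∈ P ^ 2) (n : ℕ) :
    ∀ x ∈ P ^ n, τ • x - x ∈ P ^ (n + 1) := by
  induction n with
  | zero => intro x _; simpa using h1 x
  | succ n ih =>
    intro x hx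
    rw [pow_succ] at hx
    refine Submodule.mul_induction_on hx ?_ ?_
    · intro a ha b hb
      have e : τ • (a * b) - a * b = (τ • a - a) * (τ • b) + a * (τ • b - b) := by
        rw [smul_mul']; ring
      rw [e]
      refine Ideal.add_mem _ ?_ ?_
      · rw [pow_succ]
        exact Ideal.mul_mem_mul (ih a ha) (hD τ b hb)
      · have : P ^ (n + 1 + 1) = P ^ n * P ^ 2 := by rw [← pow_add]
        rw [this]
        exact Ideal.mul_mem_mul ha (h2 b hb)
    · intro a b ha hb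
      have e : τ • (a + b) - (a + b) = (τ • a - a) + (τ • b - b) := by
        rw [smul_add]; ring
      rw [e]
      exact Ideal.add_mem _ ha hb

/-- If `τ` is trivial on `S/P` and on `P/P²` and of order prime to the residue characteristic, then
`τ` is trivial. -/
theorem smul_eq_self [IsDedekindDomain S] {P : Ideal S} [hPp : P.IsPrime]
    (hD : ∀ (d : D) (x : S), x ∈ P → d • x ∈ P) (τ : D)
    (h1 : ∀ x, τ • x - x ∈ P) (h2 : ∀ y ∈ P, τ • y - y ∈ P ^ 2) {n : ℕ} (hn : τ ^ n = 1)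
    (hnP : (n : S) ∉ P) (x : S) : τ • x = x := by
  have hA := smul_sub_mem_pow_succ hD τ h1 h2
  -- powers of `τ`
  have hA' : ∀ (j i : ℕ), ∀ y ∈ P ^ i, τ ^ j • y - y ∈ P ^ (i + 1) := by
    intro j
    induction j with
    | zero => intro i y _; simp
    | succ j ih =>
      intro i y hy
      have e : τ ^ (j + 1) • y - y = (τ ^ j • (τ • y) - τ • y) + (τ • y - y) := by
        rw [pow_succ, mul_smul]; ring
      rw [e]
      exact Ideal.add_mem _ (ih i _ (smul_mem_pow hD τ i y hy)) (hA i y hy)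
  have hB : ∀ i : ℕ, ∀ x, τ • x - x ∈ P ^ (i + 1) := by
    intro i
    induction i with
    | zero => intro x; simpa using h1 x
    | succ i ih =>
      intro x
      set z := τ • x - x with hz
      have hzi : z ∈ P ^ (i + 1) := ih x
      have hC : ∀ j : ℕ, τ ^ j • x - x - j * z ∈ P ^ (i + 1 + 1) := by
        intro j
        induction j with
        | zero => simp
        | succ j ihj =>
          have e : τ ^ (j + 1) • x - x - ((j + 1 : ℕ) : S) * z =
              (τ ^ j • x - x - j * z) + (τ ^ j • z - z) := by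
            rw [pow_succ, mul_smul]
            have : τ ^ j • z = τ ^ j • τ • x - τ ^ j • x := by rw [hz, smul_sub]
            rw [this]
            push_cast
            rw [hz]
            ring
          rw [e]
          exact Ideal.add_mem _ ihj (hA' j (i + 1) z hzi)
      have h3 := hC n
      rw [hn, one_smul, sub_self, zero_sub, neg_mem_iff] at h3
      exact (Ideal.IsPrime.mul_mem_pow P h3).resolve_left hnP
  have hne : P ≠ ⊤ := hPp.ne_top
  have h4 := Ideal.iInf_pow_eq_bot_of_isDomain (I := P) hne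
  have h5 : τ • x - x ∈ (⨅ i : ℕ, P ^ i) := by
    rw [Submodule.mem_iInf]
    intro i
    rcases i with _ | i
    · simp
    · exact hB i x
  rw [h4, Submodule.mem_bot] at h5
  exact sub_eq_zero.mp h5

/-- An element of the inertia group acts on `P/P²` by multiplication by an element. -/
theorem exists_mul_sub_mem [IsDedekindDomain S] {P : Ideal S} [hPp : P.IsPrime]
    (hP : P ≠ ⊥) (hD : ∀ (d : D) (x : S), x ∈ P → d • x ∈ P) (σ : D)
    (h1 : ∀ x, σ • x - x ∈ P) : ∃ c : S, ∀ y ∈ P, σ • y - c * y ∈ P ^ 2 := by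
  have hlt : P ^ 2 < P ^ 1 := Ideal.pow_succ_lt_pow hP 1
  obtain ⟨π, hπ1, hπ2⟩ := SetLike.exists_of_lt hlt
  have hπ : π ∈ P := by simpa using hπ1
  obtain ⟨c, e, he, hce⟩ := Ideal.exists_mul_add_mem_pow_succ hP (i := 1) π (σ • π) hπ1 hπ2
    (by simpa using hD σ π hπ)
  refine ⟨c, fun y hy => ?_⟩
  obtain ⟨d, f, hf, hdf⟩ := Ideal.exists_mul_add_mem_pow_succ hP (i := 1) π y hπ1 hπ2
    (by simpa using hy)
  have e1 : σ • y - c * y = π * c * (σ • d - d) + (e * (σ • d) + (σ • f - c * f)) := by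
    rw [← hdf, smul_add, smul_mul', ← hce]
    ring
  rw [e1]
  refine Ideal.add_mem _ ?_ (Ideal.add_mem _ ?_ (Ideal.sub_mem _ ?_ ?_))
  · rw [pow_two]
    exact Ideal.mul_mem_mul (Ideal.mul_mem_right _ _ hπ) (h1 d)
  · exact Ideal.mul_mem_right _ _ he
  · exact smul_mem_pow hD σ 2 f hf
  · exact Ideal.mul_mem_left _ _ hf

theorem pow_smul_sub_mem {P : Ideal S} (hD : ∀ (d : D) (x : S), x ∈ P → d • x ∈ P) (σ : D)
    (h1 : ∀ x, σ • x - x ∈ P) (c : S) (hc : ∀ y ∈ P, σ • y - c * y ∈ P ^ 2) (n : ℕ) :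
    ∀ y ∈ P, σ ^ n • y - c ^ n * y ∈ P ^ 2 := by
  induction n with
  | zero => intro y _; simp
  | succ n ih =>
    intro y hy
    have e : σ ^ (n + 1) • y - c ^ (n + 1) * y =
        σ ^ n • (σ • y - c * y) + ((σ ^ n • c - c) * (σ ^ n • y) + c * (σ ^ n • y - c ^ n * y)) := by
      rw [pow_succ, mul_smul, smul_sub, smul_mul']
      ring
    rw [e]
    have h3 : ∀ x, σ ^ n • x - x ∈ P := by
      have h4 : σ ∈ P.toAddSubgroup.inertia D := h1
      have h5 : σ ^ n ∈ P.toAddSubgroup.inertia D := Subgroup.pow_mem _ h4 n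
      exact h5
    refine Ideal.add_mem _ (smul_mem_pow hD _ 2 _ (hc y hy)) (Ideal.add_mem _ ?_ ?_)
    · rw [pow_two]
      exact Ideal.mul_mem_mul (h3 c) (hD _ y hy)
    · exact Ideal.mul_mem_left _ _ (ih y hy)

/-- The commutation relation of tame inertia with Frobenius, up to elements trivial on `S/P` and
`P/P²`. -/
theorem conj_smul_sub_mem {P : Ideal S} (hD : ∀ (d : D) (x : S), x ∈ P → d • x ∈ P) (σ x : D)
    (h1 : ∀ y, σ • y - y ∈ P) (c : S) (hc : ∀ y ∈ P, σ • y - c * y ∈ P ^ 2) (q : ℕ)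
    (hx : x • c - c ^ q ∈ P) :
    ∀ y ∈ P, (x * σ * x⁻¹ * (σ ^ q)⁻¹) • y - y ∈ P ^ 2 := by
  intro y hy
  set w := (σ ^ q)⁻¹ • y with hw
  have hwP : w ∈ P := hD _ y hy
  have hyw : y = σ ^ q • w := by rw [hw, smul_inv_smul]
  have e1 : (x * σ * x⁻¹ * (σ ^ q)⁻¹) • y = x • σ • x⁻¹ • w := by
    rw [hw, mul_smul, mul_smul, mul_smul]
  have hw' : x⁻¹ • w ∈ P := hD _ w hwP
  have e2 : x • (σ • (x⁻¹ • w) - c * (x⁻¹ • w)) = x • σ • x⁻¹ • w - (x • c) * w := by
    rw [smul_sub, smul_mul', smul_inv_smul]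
  have h3 := smul_mem_pow hD x 2 _ (hc _ hw')
  rw [e2] at h3
  have h4 := pow_smul_sub_mem hD σ h1 c hc q w hwP
  have e3 : (x * σ * x⁻¹ * (σ ^ q)⁻¹) • y - y =
      (x • σ • x⁻¹ • w - (x • c) * w) + ((x • c - c ^ q) * w - (σ ^ q • w - c ^ q * w)) := by
    rw [e1]
    nth_rewrite 1 [hyw]
    ring
  rw [e3]
  refine Ideal.add_mem _ h3 (Ideal.sub_mem _ ?_ h4)
  rw [pow_two]
  exact Ideal.mul_mem_mul hx hwP

/-- **Tame relation.**  If `r` is a prime different from the residue characteristic which divides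
the order of the image of the inertia group under `ρ`, then there are `σ` and `x` with
`x σ x⁻¹ = σ ^ q` such that `r` divides the order of `ρ σ`. -/
theorem exists_conj_eq_pow [IsDedekindDomain S] [Finite D] [FaithfulSMul D S]
    {G : Type*} [Group G] (P : Ideal S) [hPp : P.IsPrime]
    (hP : P ≠ ⊥) (hD : ∀ (d : D) (x : S), x ∈ P → d • x ∈ P) (φ : D) (q : ℕ)
    (hφ : ∀ x, φ • x - x ^ q ∈ P) {r : ℕ} (hr : r.Prime) (hrP : (r : S) ∉ P) (ρ : D →* G)
    (hdvd : r ∣ Nat.card ((P.inertia D).map ρ)) :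
    ∃ σ x : D, x * σ * x⁻¹ = σ ^ q ∧ r ∣ orderOf (ρ σ) := by
  classical
  have : Fact r.Prime := ⟨hr⟩
  set I : Subgroup D := P.inertia D with hI
  have hIn : I.Normal := by
    constructor
    intro n hn g y
    have h3 : n • (g⁻¹ • y) - g⁻¹ • y ∈ P := hn (g⁻¹ • y)
    have h4 := hD g _ h3
    rw [smul_sub, smul_inv_smul, smul_smul, smul_smul] at h4
    exact h4
  obtain ⟨R⟩ : Nonempty (Sylow r I) := inferInstance
  set R' : Subgroup D := (R : Subgroup I).map I.subtype with hR'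
  -- an element of `R'` with image of order divisible by `r`
  have hex : ∃ σ ∈ R', r ∣ orderOf (ρ σ) := by
    by_contra hcon
    push Not at hcon
    have h5 : (R : Subgroup I) ≤ (ρ.comp I.subtype).ker := by
      intro s hs
      rw [MonoidHom.mem_ker]
      have hs' : I.subtype s ∈ R' := Subgroup.mem_map_of_mem _ hs
      have h6 := hcon _ hs'
      obtain ⟨j, hj⟩ := R.isPGroup' ⟨s, hs⟩
      have hj' : s ^ r ^ j = 1 := by
        have := congrArg Subtype.val hj
        simpa using this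
      have h7 : ρ (I.subtype s) ^ r ^ j = 1 := by
        rw [← map_pow, ← map_pow, hj', map_one, map_one]
      have h8 : orderOf (ρ (I.subtype s)) ∣ r ^ j := orderOf_dvd_of_pow_eq_one h7
      obtain ⟨i, hi, hi'⟩ := (Nat.dvd_prime_pow hr).mp h8
      rcases Nat.eq_zero_or_pos i with h0 | h0
      · rw [h0, pow_zero] at hi'
        rw [MonoidHom.comp_apply]
        exact orderOf_eq_one_iff.mp hi'
      · exact absurd (hi' ▸ dvd_pow_self r h0.ne') h6
    have h9 : Nat.card (I.map ρ) = (ρ.comp I.subtype).ker.index := by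
      rw [Subgroup.index_ker]
      congr 1
      rw [MonoidHom.range_comp, Subgroup.range_subtype]
    have h10 : (ρ.comp I.subtype).ker.index ∣ (R : Subgroup I).index :=
      Subgroup.index_dvd_of_le h5
    exact R.not_dvd_index ((h9 ▸ hdvd).trans h10)
  obtain ⟨σ, hσR, hσ⟩ := hex
  have hR'I : R' ≤ I := by
    rw [hR']
    exact Subgroup.map_subtype_le _
  have hσI : σ ∈ I := hR'I hσR
  obtain ⟨c, hc⟩ := exists_mul_sub_mem hP hD σ hσI
  -- Frattini
  have hF := Sylow.normalizer_sup_eq_top R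
  have hφm : φ ∈ Subgroup.normalizer ((R : Subgroup I).map I.subtype : Set D) ⊔ I := by
    rw [hF]; trivial
  rw [Subgroup.mem_sup_of_normal_right] at hφm
  obtain ⟨x, hx, ι, hι, hxι⟩ := hφm
  refine ⟨σ, x, ?_, hσ⟩
  have hxq : x • c - c ^ q ∈ P := by
    -- `φ = x ι`
    have e : x = φ * ι⁻¹ := by rw [← hxι]; group
    have h3 : ι⁻¹ • c - c ∈ P := (inv_mem hι : ι⁻¹ ∈ I) c
    have h4 : φ • (ι⁻¹ • c - c) ∈ P := hD φ _ h3
    have e2 : x • c - c ^ q = φ • (ι⁻¹ • c - c) + (φ • c - c ^ q) := by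
      rw [e, mul_smul, smul_sub]; ring
    rw [e2]
    exact Ideal.add_mem _ h4 (hφ c)
  set τ := x * σ * x⁻¹ * (σ ^ q)⁻¹ with hτ
  have hτR : τ ∈ R' := by
    refine mul_mem ?_ (inv_mem (Subgroup.pow_mem _ hσR q))
    have := (Subgroup.mem_normalizer_iff.mp hx σ).mp hσR
    exact this
  have hτI : τ ∈ I := hR'I hτR
  obtain ⟨n, hn⟩ : ∃ n : ℕ, τ ^ r ^ n = 1 := by
    obtain ⟨t, ht, htτ⟩ := hτR
    obtain ⟨j, hj⟩ := R.isPGroup' ⟨t, ht⟩
    refine ⟨j, ?_⟩
    have := congrArg Subtype.val hj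
    have hj' : t ^ r ^ j = 1 := by simpa using this
    rw [← htτ, ← map_pow, hj', map_one]
  have hτ1 : τ = 1 := by
    refine FaithfulSMul.eq_of_smul_eq_smul (α := S) fun y => ?_
    rw [one_smul]
    refine smul_eq_self (P := P) hD τ hτI (conj_smul_sub_mem hD σ x hσI c hc q hxq) hn ?_ y
    rw [Nat.cast_pow]
    intro h
    exact hrP (hPp.mem_of_pow_mem _ h)
  rw [hτ] at hτ1
  exact mul_inv_eq_one.mp hτ1

end Pool.Agent.Q216.IGP
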