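import Mathlib
import Pool.Agent.Q216.IGP.Local

/-!
# The tame relation for a tower of Dedekind domains
-/

set_option autoImplicit false

namespace Pool.Agent.Q216.IGP

open scoped Pointwise

theorem card_map_mul_card_inf_ker {Γ G : Type*} [Group Γ] [Finite Γ] [Group G] (π : Γ →* G)
    (I : Subgroup Γ) :
    Nat.card (I.map π) * Nat.card (I.subgroupOf π.ker) = Nat.card I := by
  have h1 : Nat.card (I.map π) = (π.comp I.subtype).ker.index := by
    rw [Subgroup.index_ker]
    congr 1
    rw [MonoidHom.range_comp, Subgroup.range_subtype]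
  have h2 : Nat.card (I.subgroupOf π.ker) = Nat.card (π.comp I.subtype).ker := by
    have h3 : (π.comp I.subtype).ker = π.ker.subgroupOf I := by
      ext x
      simp [MonoidHom.mem_ker, Subgroup.mem_subgroupOf]
    rw [h3]
    refine Nat.card_congr ⟨fun x => ⟨⟨x.1.1, x.2⟩, x.1.2⟩, fun x => ⟨⟨x.1.1, x.2⟩, x.1.2⟩,
      fun x => rfl, fun x => rfl⟩
  rw [h1, h2, mul_comm]
  exact Subgroup.card_mul_index _

/-- If a prime `r` other than the residue characteristic divides the ramification index of the
prime `Q` of `B` over `A`, then there are `σ` and `x` in the Galois group of `C` over `A` with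
`x σ x⁻¹ = σ ^ N(P)` and `r` divides the order of the image of `σ`. -/
theorem exists_conj_of_dvd_ramificationIdx {A B C Γ G : Type*} [CommRing A] [CommRing B]
    [CommRing C] [IsDedekindDomain A] [IsDedekindDomain B] [IsDedekindDomain C] [Algebra A B]
    [Algebra A C] [Algebra B C] [IsScalarTower A B C] [Module.Finite A B] [Module.Finite A C]
    [Module.Finite B C] [Module.IsTorsionFree A C] [Module.IsTorsionFree B C]
    [Group Γ] [Finite Γ] [Group G] [MulSemiringAction Γ C] [IsGaloisGroup Γ A C] (π : Γ →* G)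
    [IsGaloisGroup π.ker B C] (Q : Ideal B) [Q.IsPrime] (hQ : Q ≠ ⊥)
    [Finite (A ⧸ Q.under A)] {r : ℕ} (hr : r.Prime) (hrQ : (r : B) ∉ Q)
    (h : r ∣ Q.ramificationIdx A) :
    ∃ σ x : Γ, x * σ * x⁻¹ = σ ^ Nat.card (A ⧸ Q.under A) ∧ r ∣ orderOf (π σ) := by
  classical
  set p : Ideal A := Q.under A with hp
  have : Algebra.IsIntegral B C := inferInstance
  obtain ⟨⟨T, hTp, hTQ⟩⟩ : Nonempty (Q.primesOver C) := inferInstance
  have hTp' : T.LiesOver p := Ideal.LiesOver.trans T Q p
  have hT0 : T ≠ ⊥ := by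
    intro h0
    apply hQ
    rw [Ideal.over_def T Q, h0]
    exact Ideal.under_bot B C
  have hfinT : Finite (C ⧸ T) := Module.finite_of_finite (A ⧸ p)
  have hfinQ : Finite (B ⧸ Q) := Module.finite_of_finite (A ⧸ p)
  have hperf1 : PerfectField p.ResidueField := inferInstance
  have hperf2 : PerfectField Q.ResidueField := inferInstance
  -- ramification index
  have e1 : Nat.card (T.inertia Γ) = T.ramificationIdx A := by
    rw [Ideal.card_inertia_eq_ramificationIdxIn p T, Ideal.ramificationIdxIn_eq_ramificationIdx p T Γ]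
  have e2 : Nat.card (T.inertia π.ker) = T.ramificationIdx B := by
    rw [Ideal.card_inertia_eq_ramificationIdxIn Q T,
      Ideal.ramificationIdxIn_eq_ramificationIdx Q T π.ker]
  have e3 := Ideal.ramificationIdx_tower (R := A) Q T
  have e4 := card_map_mul_card_inf_ker π (T.inertia Γ)
  have e5 : Nat.card ((T.inertia Γ).map π) = Q.ramificationIdx A := by
    have e6 : Nat.card ((T.inertia Γ).subgroupOf π.ker) = T.ramificationIdx B := by
      rw [← e2]
      rfl
    rw [e6, e1, e3] at e4
    have hpos : 0 < T.ramificationIdx B := Ideal.ramificationIdx_pos T B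
    exact Nat.eq_of_mul_eq_mul_right hpos e4
  -- the decomposition group
  set D : Subgroup Γ := MulAction.stabilizer Γ T with hD
  have hDact : ∀ (d : D) (x : C), x ∈ T → d • x ∈ T := by
    intro d x hx
    have h1 : (d : Γ) • T = T := d.2
    rw [← h1]
    exact Ideal.smul_mem_pointwise_smul (d : Γ) x T hx
  obtain ⟨φ, hφ⟩ := IsArithFrobAt.exists_of_isInvariant A Γ T
  have hφD : φ ∈ D := hφ.mem_stabilizer
  have hpT : T.under A = p := (Ideal.over_def T p).symm
  have hφ' : ∀ x : C, (⟨φ, hφD⟩ : D) • x - x ^ Nat.card (A ⧸ p) ∈ T := by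
    intro x
    have := hφ x
    rw [hpT] at this
    exact this
  have hfaith : FaithfulSMul Γ C := IsGaloisGroup.faithful A
  have hrT : (r : C) ∉ T := by
    intro h1
    apply hrQ
    rw [Ideal.over_def T Q, Ideal.mem_comap, map_natCast]
    exact h1
  have hdvd : r ∣ Nat.card ((T.inertia D).map (π.comp D.subtype)) := by
    have e7 : (T.inertia D).map (π.comp D.subtype) = (T.inertia Γ).map π := by
      rw [← Subgroup.map_map]
      congr 1
      rw [AddSubgroup.inertia_map_subtype]
      exact inf_eq_left.mpr (Ideal.inertia_le_stabilizer T)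
    rw [e7, e5]
    exact h
  obtain ⟨σ, x, h1, h2⟩ := exists_conj_eq_pow (S := C) (D := D) T hT0 hDact ⟨φ, hφD⟩ _ hφ' hr hrT
    (π.comp D.subtype) hdvd
  refine ⟨σ, x, ?_, h2⟩
  have := congrArg Subtype.val h1
  simpa using this

end Pool.Agent.Q216.IGP
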