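import Mathlib
import Pool.Agent.Q216.IGP.Cover
import Pool.Agent.Q216.IGP.Dedekind

/-!
# Galois extensions of arbitrary fields and the Dedekind domains of the base field
-/

set_option autoImplicit false

namespace Pool.Agent.Q216.IGP

/-- The tame relation in the Galois group of `N` over `F` forced by a tamely ramified prime of the
subextension `L`. -/
theorem exists_conj_tower {F L N A G : Type*} [Field F] [Field L] [Field N] [Algebra F L]
    [Algebra L N] [Algebra F N] [IsScalarTower F L N] [FiniteDimensional F N] [IsGalois F N]
    [Group G] (π : Gal(N/F) →* G) [hL : IsGaloisGroup π.ker L N] [CommRing A] [IsDedekindDomain A]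
    [Algebra A F] [IsFractionRing A F] [Algebra A L] [IsScalarTower A F L]
    (Q : Ideal (integralClosure A L)) [Q.IsPrime] (hQ : Q ≠ ⊥) [Finite (A ⧸ Q.under A)] {r : ℕ}
    (hr : r.Prime) (hrQ : (r : integralClosure A L) ∉ Q) (h : r ∣ Q.ramificationIdx A) :
    ∃ σ x : Gal(N/F), x * σ * x⁻¹ = σ ^ Nat.card (A ⧸ Q.under A) ∧ r ∣ orderOf (π σ) := by
  classical
  let iAN : Algebra A N := ((algebraMap L N).comp (algebraMap A L)).toAlgebra
  have t1 : IsScalarTower A L N := IsScalarTower.of_algebraMap_eq' rfl
  have t2 : IsScalarTower A F N := by
    refine IsScalarTower.of_algebraMap_eq fun x => ?_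
    rw [IsScalarTower.algebraMap_apply A L N, IsScalarTower.algebraMap_apply A F L,
      ← IsScalarTower.algebraMap_apply F L N]
  have hsepL : Algebra.IsSeparable F L := Algebra.isSeparable_tower_bot_of_isSeparable F L N
  have hfdL : FiniteDimensional F L := FiniteDimensional.left F L N
  have d1 : IsDedekindDomain (integralClosure A L) := integralClosure.isDedekindDomain A F L
  have d2 : IsDedekindDomain (integralClosure A N) := integralClosure.isDedekindDomain A F N
  have f1 : Module.Finite A (integralClosure A L) := IsIntegralClosure.finite A F L _
  have f2 : Module.Finite A (integralClosure A N) := IsIntegralClosure.finite A F N _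
  have fr1 : IsFractionRing (integralClosure A L) L :=
    IsIntegralClosure.isFractionRing_of_finite_extension A F L _
  have fr2 : IsFractionRing (integralClosure A N) N :=
    IsIntegralClosure.isFractionRing_of_finite_extension A F N _
  let g : integralClosure A L →+* integralClosure A N :=
    { toFun := fun x => ⟨algebraMap L N x.1, x.2.algebraMap⟩
      map_one' := by ext; simp
      map_mul' := fun x y => by ext; simp
      map_zero' := by ext; simp
      map_add' := fun x y => by ext; simp }
  let iBC : Algebra (integralClosure A L) (integralClosure A N) := g.toAlgebra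
  have hBC : ∀ x : integralClosure A L,
      (algebraMap (integralClosure A L) (integralClosure A N) x : N) = algebraMap L N x.1 :=
    fun x => rfl
  have t3 : IsScalarTower A (integralClosure A L) (integralClosure A N) := by
    refine IsScalarTower.of_algebraMap_eq fun x => ?_
    ext
    rw [hBC]
    rfl
  have t4 : IsScalarTower (integralClosure A L) L N := inferInstance
  have t5 : IsScalarTower (integralClosure A L) (integralClosure A N) N := by
    refine IsScalarTower.of_algebraMap_eq fun x => ?_
    rfl
  have f3 : Module.Finite (integralClosure A L) (integralClosure A N) :=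
    Module.Finite.of_restrictScalars_finite A _ _
  have fs1 : FaithfulSMul A (integralClosure A N) := by
    rw [faithfulSMul_iff_algebraMap_injective]
    intro x y hxy
    have h1 := congrArg (algebraMap (integralClosure A N) N) hxy
    rw [← IsScalarTower.algebraMap_apply, ← IsScalarTower.algebraMap_apply,
      IsScalarTower.algebraMap_apply A F N, IsScalarTower.algebraMap_apply A F N] at h1
    exact IsFractionRing.injective A F ((algebraMap F N).injective h1)
  have fs2 : FaithfulSMul (integralClosure A L) (integralClosure A N) := by
    rw [faithfulSMul_iff_algebraMap_injective]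
    intro x y hxy
    have h1 := congrArg (algebraMap (integralClosure A N) N) hxy
    ext
    exact (algebraMap L N).injective h1
  have tf1 : Module.IsTorsionFree A (integralClosure A N) := inferInstance
  have tf2 : Module.IsTorsionFree (integralClosure A L) (integralClosure A N) := inferInstance
  have c1 : SMulCommClass Gal(N/F) A N := by
    refine ⟨fun s a x => ?_⟩
    rw [Algebra.smul_def, Algebra.smul_def, smul_mul', IsScalarTower.algebraMap_apply A F N]
    congr 1
    exact AlgEquiv.commutes s _
  have g1 : IsGaloisGroup Gal(N/F) A (integralClosure A N) :=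
    IsGaloisGroup.of_isFractionRing Gal(N/F) A (integralClosure A N) F N
  have i1 : Algebra.IsIntegral (integralClosure A L) (integralClosure A N) := inferInstance
  have i2 : IsIntegrallyClosed (integralClosure A L) := inferInstance
  have s1 : SMulDistribClass π.ker (integralClosure A N) N :=
    ⟨fun g a b => smul_distrib_smul (g : Gal(N/F)) a b⟩
  have g2 : IsGaloisGroup π.ker (integralClosure A L) (integralClosure A N) :=
    IsGaloisGroup.of_isFractionRing π.ker (integralClosure A L) (integralClosure A N) L N
  have fin : Finite Gal(N/F) := inferInstance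
  exact exists_conj_of_dvd_ramificationIdx (A := A) (B := integralClosure A L)
    (C := integralClosure A N) π Q hQ hr hrQ h

/-- The ramification index divides the order of the Galois group. -/
theorem ramificationIdx_dvd_card_gal {F L A : Type*} [Field F] [Field L] [Algebra F L]
    [FiniteDimensional F L] [IsGalois F L] [CommRing A] [IsDedekindDomain A]
    [Algebra A F] [IsFractionRing A F] [Algebra A L] [IsScalarTower A F L]
    (Q : Ideal (integralClosure A L)) [Q.IsPrime] [Finite (A ⧸ Q.under A)] :
    Q.ramificationIdx A ∣ Nat.card Gal(L/F) := by
  have d1 : IsDedekindDomain (integralClosure A L) := integralClosure.isDedekindDomain A F L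
  have f1 : Module.Finite A (integralClosure A L) := IsIntegralClosure.finite A F L _
  have fr1 : IsFractionRing (integralClosure A L) L :=
    IsIntegralClosure.isFractionRing_of_finite_extension A F L _
  have fs1 : FaithfulSMul A (integralClosure A L) := by
    rw [faithfulSMul_iff_algebraMap_injective]
    intro x y hxy
    have h1 := congrArg (algebraMap (integralClosure A L) L) hxy
    rw [← IsScalarTower.algebraMap_apply, ← IsScalarTower.algebraMap_apply,
      IsScalarTower.algebraMap_apply A F L, IsScalarTower.algebraMap_apply A F L] at h1
    exact IsFractionRing.injective A F ((algebraMap F L).injective h1)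
  have tf1 : Module.IsTorsionFree A (integralClosure A L) := inferInstance
  have c1 : SMulCommClass Gal(L/F) A L := by
    refine ⟨fun s a x => ?_⟩
    rw [Algebra.smul_def, Algebra.smul_def, smul_mul', IsScalarTower.algebraMap_apply A F L]
    congr 1
    exact AlgEquiv.commutes s _
  have g1 : IsGaloisGroup Gal(L/F) A (integralClosure A L) :=
    IsGaloisGroup.of_isFractionRing Gal(L/F) A (integralClosure A L) F L
  have fin : Finite Gal(L/F) := inferInstance
  rw [← Ideal.ramificationIdxIn_eq_ramificationIdx (Q.under A) Q Gal(L/F),
    ← Ideal.card_inertia_eq_ramificationIdxIn (G := Gal(L/F)) (Q.under A) Q]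
  exact Subgroup.card_subgroup_dvd_card _

/-- The primes dividing the order of the cover divide the order of the group. -/
theorem Cov.dvd_card {G : Type*} [Group G] [Fintype G] {n : ℕ} [NeZero (Nat.card G ^ n)] {r : ℕ}
    (hr : r.Prime) (h : r ∣ Nat.card (Cov G (Nat.card G ^ n))) : r ∣ Nat.card G := by
  classical
  by_contra hG
  have : Fact r.Prime := ⟨hr⟩
  obtain ⟨a, ha⟩ := exists_prime_orderOf_dvd_card' r h
  have h1 : a.g = 1 := by
    have h2 : a.g ^ r = 1 := by rw [← Cov.pow_g, ← ha, pow_orderOf_eq_one, Cov.one_g]
    have h3 : orderOf a.g ∣ r := orderOf_dvd_of_pow_eq_one h2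
    rcases (Nat.dvd_prime hr).mp h3 with h4 | h4
    · exact orderOf_eq_one_iff.mp h4
    · exact absurd (h4 ▸ orderOf_dvd_natCard a.g) hG
  have h5 : a ^ (Nat.card G ^ n) = 1 := Cov.pow_eq_one_of_proj h1
  have h6 : r ∣ Nat.card G ^ n := ha ▸ orderOf_dvd_of_pow_eq_one h5
  exact hG (hr.dvd_of_dvd_pow h6)

end Pool.Agent.Q216.IGP
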