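import Mathlib
import Pool.Agent.Q216.IGP.Local

/-!
# Subgroups of decomposition groups of order prime to the residue characteristic are metacyclic
-/

set_option autoImplicit false

namespace Pool.Agent.Q216.IGP

open scoped Pointwise

section inertia

variable {S D : Type*} [CommRing S] [Group D] [MulSemiringAction D S]

/-- The multiplier of an element of the inertia group on `P/P²` is unique modulo `P`. -/
theorem mem_of_mul_mem_sq [IsDedekindDomain S] {P : Ideal S} [hPp : P.IsPrime] (hP : P ≠ ⊥) (c : S)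
    (hc : ∀ y ∈ P, c * y ∈ P ^ 2) : c ∈ P := by
  have hlt : P ^ 2 < P ^ 1 := Ideal.pow_succ_lt_pow hP 1
  obtain ⟨π, hπ1, hπ2⟩ := SetLike.exists_of_lt hlt
  have hπ : π ∈ P := by simpa using hπ1
  exact (Ideal.IsPrime.mul_mem_pow P (hc π hπ)).resolve_right hπ2

/-- An `r`-subgroup of the inertia group is cyclic, `r` prime to the residue characteristic. -/
theorem isCyclic_of_le_inertia [IsDedekindDomain S] [Finite D] [FaithfulSMul D S]
    (P : Ideal S) [hPp : P.IsPrime] (hP : P ≠ ⊥) (hD : ∀ (d : D) (x : S), x ∈ P → d • x ∈ P)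
    {r : ℕ} (hr : r.Prime) (hrP : (r : S) ∉ P) (Q : Subgroup D) (hQ : IsPGroup r Q)
    (hQI : Q ≤ P.inertia D) : IsCyclic Q := by
  classical
  have hinert : ∀ σ : Q, ∀ x : S, (σ : D) • x - x ∈ P := fun σ => hQI σ.2
  have hex : ∀ σ : Q, ∃ c : S, ∀ y ∈ P, (σ : D) • y - c * y ∈ P ^ 2 := fun σ =>
    exists_mul_sub_mem hP hD (σ : D) (hinert σ)
  choose c hc using hex
  have huniq : ∀ (σ : Q) (e : S), (∀ y ∈ P, (σ : D) • y - e * y ∈ P ^ 2) → c σ - e ∈ P := by
    intro σ e he
    refine mem_of_mul_mem_sq hP _ fun y hy => ?_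
    have h1 : (c σ - e) * y = ((σ : D) • y - e * y) - ((σ : D) • y - c σ * y) := by ring
    rw [h1]
    exact Ideal.sub_mem _ (he y hy) (hc σ y hy)
  let f : Q →* (S ⧸ P) :=
    { toFun := fun σ => Ideal.Quotient.mk P (c σ)
      map_one' := by
        rw [← map_one (Ideal.Quotient.mk P), Ideal.Quotient.eq]
        refine huniq 1 1 fun y hy => ?_
        simp
      map_mul' := by
        intro σ τ
        rw [← map_mul, Ideal.Quotient.eq]
        refine huniq (σ * τ) _ fun y hy => ?_
        have e : ((σ * τ : Q) : D) • y - c σ * c τ * y =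
            (σ : D) • ((τ : D) • y - c τ * y) +
              (((σ : D) • c τ - c τ) * ((σ : D) • y) + c τ * ((σ : D) • y - c σ * y)) := by
          rw [Subgroup.coe_mul, mul_smul, smul_sub, smul_mul']
          ring
        rw [e]
        refine Ideal.add_mem _ (smul_mem_pow hD _ 2 _ (hc τ y hy)) (Ideal.add_mem _ ?_ ?_)
        · rw [pow_two]
          exact Ideal.mul_mem_mul (hinert σ _) (hD _ y hy)
        · exact Ideal.mul_mem_left _ _ (hc σ y hy) }
  have hf : Function.Injective f := by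
    rw [injective_iff_map_eq_one]
    intro σ hσ
    have h1 : c σ - 1 ∈ P := by
      rw [← Ideal.Quotient.eq, map_one]
      exact hσ
    have h2 : ∀ y ∈ P, (σ : D) • y - y ∈ P ^ 2 := by
      intro y hy
      have e : (σ : D) • y - y = ((σ : D) • y - c σ * y) + (c σ - 1) * y := by ring
      rw [e]
      refine Ideal.add_mem _ (hc σ y hy) ?_
      rw [pow_two]
      exact Ideal.mul_mem_mul h1 hy
    obtain ⟨n, hn⟩ := hQ σ
    have hn' : (σ : D) ^ r ^ n = 1 := by
      have := congrArg Subtype.val hn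
      simpa using this
    apply Subtype.ext
    refine FaithfulSMul.eq_of_smul_eq_smul (α := S) fun y => ?_
    rw [Subgroup.coe_one, one_smul]
    refine smul_eq_self (P := P) hD (σ : D) (hinert σ) h2 hn' ?_ y
    rw [Nat.cast_pow]
    intro h
    exact hrP (hPp.mem_of_pow_mem _ h)
  exact isCyclic_of_injective_ringHom f hf

end inertia

/-- Cyclic by cyclic groups have two generators with a conjugation relation. -/
theorem exists_gen_of_cyclic {D C : Type*} [Group D] [Finite D] [Group C] [IsCyclic C] (f : D →* C)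
    (Q : Subgroup D) (hcyc : IsCyclic (Q ⊓ f.ker : Subgroup D)) :
    ∃ a b : D, Subgroup.closure ({a, b} : Set D) = Q ∧ ∃ s : ℕ, b * a * b⁻¹ = a ^ s := by
  classical
  obtain ⟨⟨a, ha⟩, hgen⟩ := hcyc.exists_generator
  have haQ : a ∈ Q := ha.1
  have hak : f a = 1 := ha.2
  have hzp : ∀ x ∈ Q, f x = 1 → x ∈ Subgroup.zpowers a := by
    intro x hx hfx
    obtain ⟨n, hn⟩ := hgen ⟨x, hx, hfx⟩
    refine ⟨n, ?_⟩
    have := congrArg Subtype.val hn
    simpa using this
  have hcyc2 : IsCyclic (Q.map f) := inferInstance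
  obtain ⟨⟨y, b, hbQ, hby⟩, hgen2⟩ := hcyc2.exists_generator
  have hgen2' : ∀ x ∈ Q, ∃ n : ℤ, f b ^ n = f x := by
    intro x hx
    obtain ⟨n, hn⟩ := hgen2 ⟨f x, Subgroup.mem_map_of_mem f hx⟩
    refine ⟨n, ?_⟩
    have := congrArg Subtype.val hn
    rw [hby]
    simpa using this
  refine ⟨a, b, ?_, ?_⟩
  · apply le_antisymm
    · rw [Subgroup.closure_le]
      intro x hx
      rcases hx with rfl | hx
      · exact haQ
      · rw [Set.mem_singleton_iff] at hx
        rw [hx]
        exact hbQ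
    · intro x hx
      obtain ⟨n, hn⟩ := hgen2' x hx
      have h1 : x * (b ^ n)⁻¹ ∈ Subgroup.zpowers a := by
        refine hzp _ (Q.mul_mem hx (Q.inv_mem (Q.zpow_mem hbQ n))) ?_
        rw [map_mul, map_inv, map_zpow, hn, mul_inv_cancel]
      have h2 : Subgroup.zpowers a ≤ Subgroup.closure {a, b} := by
        rw [Subgroup.zpowers_le]
        exact Subgroup.subset_closure (by simp)
      have h3 : b ^ n ∈ Subgroup.closure ({a, b} : Set D) :=
        Subgroup.zpow_mem _ (Subgroup.subset_closure (by simp)) n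
      have h4 := Subgroup.mul_mem _ (h2 h1) h3
      simpa using h4
  · have h1 : b * a * b⁻¹ ∈ Subgroup.zpowers a := by
      refine hzp _ (Q.mul_mem (Q.mul_mem hbQ haQ) (Q.inv_mem hbQ)) ?_
      rw [map_mul, map_mul, map_inv, hak, mul_one, mul_inv_cancel]
    rw [← mem_powers_iff_mem_zpowers] at h1
    obtain ⟨s, hs⟩ := h1
    exact ⟨s, hs.symm⟩

/-- Every Sylow `r`-subgroup of the decomposition group of a prime `Q` of `B` over `A` is the image
of a subgroup `⟨a, b⟩` of the Galois group of `C` over `A` with `b a b⁻¹ = a ^ s`, `r` any prime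
not in `Q`. -/
theorem exists_metacyclic_of_sylow {A B C Γ Δ : Type*} [CommRing A] [CommRing B]
    [CommRing C] [IsDedekindDomain A] [IsDedekindDomain B] [IsDedekindDomain C] [Algebra A B]
    [Algebra A C] [Algebra B C] [IsScalarTower A B C] [Module.Finite A B] [Module.Finite A C]
    [Module.Finite B C] [Module.IsTorsionFree A C] [Module.IsTorsionFree B C]
    [Group Γ] [Finite Γ] [Group Δ] [Finite Δ] [MulSemiringAction Γ C] [MulSemiringAction Δ B]
    [IsGaloisGroup Γ A C] (ρ : Γ →* Δ) (hρ : Function.Surjective ρ)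
    (hcomp : ∀ (σ : Γ) (x : B), algebraMap B C (ρ σ • x) = σ • algebraMap B C x)
    [IsGaloisGroup ρ.ker B C] (Q : Ideal B) [Q.IsPrime] (hQ : Q ≠ ⊥)
    [Finite (A ⧸ Q.under A)] {r : ℕ} (hr : r.Prime) (hrQ : (r : B) ∉ Q)
    (R : Sylow r (MulAction.stabilizer Δ Q)) :
    ∃ a b : Γ, ∃ s : ℕ, b * a * b⁻¹ = a ^ s ∧
      IsPGroup r (Subgroup.closure ({a, b} : Set Γ)) ∧
      Nonempty (R ≃* Subgroup.closure ({ρ a, ρ b} : Set Δ)) := by
  classical
  have hrf : Fact r.Prime := ⟨hr⟩
  set p : Ideal A := Q.under A with hp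
  obtain ⟨⟨T, hTp, hTQ⟩⟩ : Nonempty (Q.primesOver C) := inferInstance
  have hTp' : T.LiesOver p := Ideal.LiesOver.trans T Q p
  have hT0 : T ≠ ⊥ := by
    intro h0
    apply hQ
    rw [Ideal.over_def T Q, h0]
    exact Ideal.under_bot B C
  have hp0 : p ≠ ⊥ := by
    intro h0
    exact hQ (Ideal.eq_bot_of_comap_eq_bot h0)
  have hpp : p.IsPrime := inferInstance
  have hpm : p.IsMaximal := hpp.isMaximal hp0
  have hTm : T.IsMaximal := hTp.isMaximal hT0
  have hfinT : Finite (C ⧸ T) := Module.finite_of_finite (A ⧸ p)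
  have hrT : (r : C) ∉ T := by
    intro h1
    apply hrQ
    rw [Ideal.over_def T Q, Ideal.mem_comap, map_natCast]
    exact h1
  have hfaith : FaithfulSMul Γ C := IsGaloisGroup.faithful A
  -- the decomposition group of `T`
  set D : Subgroup Γ := MulAction.stabilizer Γ T with hD
  have hDact : ∀ (d : D) (x : C), x ∈ T → d • x ∈ T := by
    intro d x hx
    have h1 : (d : Γ) • T = T := d.2
    rw [← h1]
    exact Ideal.smul_mem_pointwise_smul (d : Γ) x T hx
  -- its homomorphism to the decomposition group of `Q`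
  have hsmul : ∀ (σ : Γ) (J : Ideal C), (σ • J).under B = ρ σ • (J.under B) := by
    intro σ J
    ext x
    rw [Ideal.mem_comap, Ideal.mem_pointwise_smul_iff_inv_smul_mem,
      Ideal.mem_pointwise_smul_iff_inv_smul_mem, Ideal.mem_comap, ← map_inv, hcomp]
  have hTQ' : T.under B = Q := (Ideal.over_def T Q).symm
  let g : D →* MulAction.stabilizer Δ Q :=
    { toFun := fun σ => ⟨ρ σ, by
        rw [MulAction.mem_stabilizer_iff]
        have h1 : ((σ : Γ) • T).under B = ρ σ • (T.under B) := hsmul σ T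
        have h2 : (σ : Γ) • T = T := σ.2
        rw [h2, hTQ'] at h1
        exact h1.symm⟩
      map_one' := by ext; simp
      map_mul' := fun x y => by ext; simp }
  have hg : Function.Surjective g := by
    rintro ⟨τ, hτ⟩
    rw [MulAction.mem_stabilizer_iff] at hτ
    obtain ⟨σ, rfl⟩ := hρ τ
    have h1 : (σ • T).under B = Q := by rw [hsmul, hTQ', hτ]
    have h2 : (σ • T).LiesOver Q := ⟨h1.symm⟩
    have h3 : (σ • T).IsPrime := inferInstance
    obtain ⟨h, hh⟩ := Ideal.exists_smul_eq_of_isGaloisGroup Q (σ • T) T ρ.ker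
    refine ⟨⟨(h : Γ) * σ, ?_⟩, ?_⟩
    · rw [hD, MulAction.mem_stabilizer_iff, mul_smul]
      exact hh
    · apply Subtype.ext
      change ρ ((h : Γ) * σ) = ρ σ
      rw [map_mul, (MonoidHom.mem_ker).mp h.2, one_mul]
  obtain ⟨S⟩ : Nonempty (Sylow r D) := inferInstance
  have e1 : R ≃* (S.mapSurjective hg) := Sylow.equiv R (S.mapSurjective hg)
  -- the homomorphism of `D` to the automorphisms of the residue field
  let _ : Field (A ⧸ p) := Ideal.Quotient.field p
  let _ : Field (C ⧸ T) := Ideal.Quotient.field T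
  have hcycAut : IsCyclic Gal((C ⧸ T)/(A ⧸ p)) := inferInstance
  let f : D →* ((C ⧸ T) ≃ₐ[A ⧸ p] (C ⧸ T)) := Ideal.Quotient.stabilizerHom T p Γ
  have hker : f.ker = T.inertia D := Ideal.Quotient.ker_stabilizerHom T p Γ
  have hcycI : IsCyclic ((S : Subgroup D) ⊓ f.ker : Subgroup D) := by
    refine isCyclic_of_le_inertia (S := C) (D := D) T hT0 hDact hr hrT _ ?_ ?_
    · exact S.isPGroup'.to_le inf_le_left
    · rw [hker]
      exact inf_le_right
  have hcycAut' : IsCyclic ((C ⧸ T) ≃ₐ[A ⧸ p] (C ⧸ T)) := hcycAut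
  obtain ⟨a, b, hab, s, hs⟩ := exists_gen_of_cyclic f (S : Subgroup D) hcycI
  refine ⟨a, b, s, ?_, ?_, ?_⟩
  · have := congrArg Subtype.val hs
    simpa using this
  · have h1 : Subgroup.closure ({(a : Γ), (b : Γ)} : Set Γ) = (S : Subgroup D).map D.subtype := by
      rw [← hab, MonoidHom.map_closure, Set.image_pair]
      rfl
    rw [h1]
    exact S.isPGroup'.map D.subtype
  · have h1 : Subgroup.closure ({ρ a, ρ b} : Set Δ) =
        ((S.mapSurjective hg : Sylow r _) : Subgroup (MulAction.stabilizer Δ Q)).map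
          (MulAction.stabilizer Δ Q).subtype := by
      rw [Sylow.coe_mapSurjective, ← hab, MonoidHom.map_closure, MonoidHom.map_closure,
        Set.image_pair, Set.image_pair]
      rfl
    rw [h1]
    exact ⟨e1.trans (Subgroup.equivMapOfInjective _ _ (Subgroup.subtype_injective _))⟩

end Pool.Agent.Q216.IGP
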