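import Mathlib
import Pool.Agent.Q216.IGP.Cover2
import Pool.Agent.Q216.IGP.Local2
import Pool.Agent.Q216.IGP.Fields

/-!
# Prime-to-residue-characteristic subgroups of decomposition groups, for arbitrary fields
-/

set_option autoImplicit false

namespace Pool.Agent.Q216.IGP

open scoped Pointwise

/-- Every `r`-subgroup of the decomposition group of `Q` over `A`, `r` not the residue
characteristic, embeds into the image of a metacyclic subgroup of the Galois group of `N`. -/
theorem exists_metacyclic_tower {F L N A : Type*} [Field F] [Field L] [Field N] [Algebra F L]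
    [Algebra L N] [Algebra F N] [IsScalarTower F L N]
    [FiniteDimensional F N] [IsGalois F N] [IsGalois F L]
    [CommRing A] [IsDedekindDomain A]
    [Algebra A F] [IsFractionRing A F] [Algebra A L] [IsScalarTower A F L]
    (Q : Ideal (integralClosure A L)) [Q.IsPrime] (hQ : Q ≠ ⊥) [Finite (A ⧸ Q.under A)] {r : ℕ}
    (hr : r.Prime) (hrQ : (r : integralClosure A L) ∉ Q) (R : Subgroup Gal(L/F))
    (hR : IsPGroup r R)
    (hRQ : ∀ σ ∈ R, ∀ x y : integralClosure A L, σ x = y → (x ∈ Q ↔ y ∈ Q)) :
    ∃ a b : Gal(N/F), ∃ s : ℕ, b * a * b⁻¹ = a ^ s ∧
      IsPGroup r (Subgroup.closure ({a, b} : Set Gal(N/F))) ∧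
      ∃ f : R →* Subgroup.closure ({AlgEquiv.restrictNormalHom L a,
        AlgEquiv.restrictNormalHom L b} : Set Gal(L/F)), Function.Injective f := by
  classical
  let iAN : Algebra A N := ((algebraMap L N).comp (algebraMap A L)).toAlgebra
  have t1 : IsScalarTower A L N := IsScalarTower.of_algebraMap_eq' rfl
  have t2 : IsScalarTower A F N := by
    refine IsScalarTower.of_algebraMap_eq fun x => ?_
    rw [IsScalarTower.algebraMap_apply A L N, IsScalarTower.algebraMap_apply A F L,
      ← IsScalarTower.algebraMap_apply F L N]
  have hsepL : Algebra.IsSeparable F L := Algebra.isSeparable_tower_bot_of_isSeparable F L N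
  have hfdL : FiniteDimensional F L := FiniteDimensional.left F L N
  have d1 : IsDedekindDomain (integralClosure A L) := integralClosure.isDedekindDomain A F L
  have d2 : IsDedekindDomain (integralClosure A N) := integralClosure.isDedekindDomain A F N
  have f1 : Module.Finite A (integralClosure A L) := IsIntegralClosure.finite A F L _
  have f2 : Module.Finite A (integralClosure A N) := IsIntegralClosure.finite A F N _
  have fr1 : IsFractionRing (integralClosure A L) L :=
    IsIntegralClosure.isFractionRing_of_finite_extension A F L _
  have fr2 : IsFractionRing (integralClosure A N) N :=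
    IsIntegralClosure.isFractionRing_of_finite_extension A F N _
  let g : integralClosure A L →+* integralClosure A N :=
    { toFun := fun x => ⟨algebraMap L N x.1, x.2.algebraMap⟩
      map_one' := by ext; simp
      map_mul' := fun x y => by ext; simp
      map_zero' := by ext; simp
      map_add' := fun x y => by ext; simp }
  let iBC : Algebra (integralClosure A L) (integralClosure A N) := g.toAlgebra
  have hBC : ∀ x : integralClosure A L,
      (algebraMap (integralClosure A L) (integralClosure A N) x : N) = algebraMap L N x.1 :=
    fun x => rfl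
  have t3 : IsScalarTower A (integralClosure A L) (integralClosure A N) := by
    refine IsScalarTower.of_algebraMap_eq fun x => ?_
    ext
    rw [hBC]
    rfl
  have t4 : IsScalarTower (integralClosure A L) L N := inferInstance
  have t5 : IsScalarTower (integralClosure A L) (integralClosure A N) N := by
    refine IsScalarTower.of_algebraMap_eq fun x => ?_
    rfl
  have f3 : Module.Finite (integralClosure A L) (integralClosure A N) :=
    Module.Finite.of_restrictScalars_finite A _ _
  have fs1 : FaithfulSMul A (integralClosure A N) := by
    rw [faithfulSMul_iff_algebraMap_injective]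
    intro x y hxy
    have h1 := congrArg (algebraMap (integralClosure A N) N) hxy
    rw [← IsScalarTower.algebraMap_apply, ← IsScalarTower.algebraMap_apply,
      IsScalarTower.algebraMap_apply A F N, IsScalarTower.algebraMap_apply A F N] at h1
    exact IsFractionRing.injective A F ((algebraMap F N).injective h1)
  have fs2 : FaithfulSMul (integralClosure A L) (integralClosure A N) := by
    rw [faithfulSMul_iff_algebraMap_injective]
    intro x y hxy
    have h1 := congrArg (algebraMap (integralClosure A N) N) hxy
    ext
    exact (algebraMap L N).injective h1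
  have tf1 : Module.IsTorsionFree A (integralClosure A N) := inferInstance
  have tf2 : Module.IsTorsionFree (integralClosure A L) (integralClosure A N) := inferInstance
  have c1 : SMulCommClass Gal(N/F) A N := by
    refine ⟨fun s a x => ?_⟩
    rw [Algebra.smul_def, Algebra.smul_def, smul_mul', IsScalarTower.algebraMap_apply A F N]
    congr 1
    exact AlgEquiv.commutes s _
  have c2 : SMulCommClass Gal(L/F) A L := by
    refine ⟨fun s a x => ?_⟩
    rw [Algebra.smul_def, Algebra.smul_def, smul_mul', IsScalarTower.algebraMap_apply A F L]
    congr 1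
    exact AlgEquiv.commutes s _
  have g1 : IsGaloisGroup Gal(N/F) A (integralClosure A N) :=
    IsGaloisGroup.of_isFractionRing Gal(N/F) A (integralClosure A N) F N
  have i1 : Algebra.IsIntegral (integralClosure A L) (integralClosure A N) := inferInstance
  have i2 : IsIntegrallyClosed (integralClosure A L) := inferInstance
  set ρ : Gal(N/F) →* Gal(L/F) := AlgEquiv.restrictNormalHom L with hρ
  have hker : ρ.ker = fixingSubgroup Gal(N/F) (Set.range (algebraMap L N)) := by
    ext σ
    rw [MonoidHom.mem_ker, mem_fixingSubgroup_iff]
    constructor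
    · rintro h _ ⟨x, rfl⟩
      have h1 := AlgEquiv.restrictNormal_commutes σ L x
      have h2 : AlgEquiv.restrictNormal σ L = 1 := h
      rw [h2] at h1
      exact h1.symm
    · intro h
      ext x
      apply (algebraMap L N).injective
      rw [hρ]
      have h1 := AlgEquiv.restrictNormal_commutes σ L x
      exact h1.trans (h _ ⟨x, rfl⟩)
  have hgk : IsGaloisGroup ρ.ker L N := by
    rw [hker]
    exact IsGaloisGroup.of_isScalarTower Gal(N/F) F N L
  have s1 : SMulDistribClass ρ.ker (integralClosure A N) N :=
    ⟨fun g a b => smul_distrib_smul (g : Gal(N/F)) a b⟩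
  have g2 : IsGaloisGroup ρ.ker (integralClosure A L) (integralClosure A N) :=
    IsGaloisGroup.of_isFractionRing ρ.ker (integralClosure A L) (integralClosure A N) L N
  have fin : Finite Gal(N/F) := inferInstance
  have hsurj : Function.Surjective ρ := AlgEquiv.restrictNormalHom_surjective N
  have hcomp : ∀ (σ : Gal(N/F)) (x : integralClosure A L),
      algebraMap (integralClosure A L) (integralClosure A N) (ρ σ • x) =
      σ • algebraMap (integralClosure A L) (integralClosure A N) x := by
    intro σ x
    ext
    exact AlgEquiv.restrictNormal_commutes σ L (x : L)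
  -- `R` lies in the stabilizer
  have hRst : R ≤ MulAction.stabilizer Gal(L/F) Q := by
    intro σ hσ
    rw [MulAction.mem_stabilizer_iff]
    ext x
    rw [Ideal.mem_pointwise_smul_iff_inv_smul_mem]
    refine (hRQ σ hσ (σ⁻¹ • x) x ?_)
    change (σ • (σ⁻¹ • x) : integralClosure A L).1 = x.1
    rw [smul_inv_smul]
  have hR' : IsPGroup r (R.subgroupOf (MulAction.stabilizer Gal(L/F) Q)) :=
    hR.comap_subtype
  obtain ⟨S₀, hS₀⟩ := hR'.exists_le_sylow
  obtain ⟨a, b, s, h1, h2, ⟨h3⟩⟩ := exists_metacyclic_of_sylow (A := A)
    (B := integralClosure A L) (C := integralClosure A N) ρ hsurj hcomp Q hQ hr hrQ S₀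
  refine ⟨a, b, s, h1, h2, h3.toMonoidHom.comp ((Subgroup.inclusion hS₀).comp
    (Subgroup.subgroupOfEquivOfLe hRst).symm.toMonoidHom), ?_⟩
  exact h3.injective.comp ((Subgroup.inclusion_injective hS₀).comp
    (Subgroup.subgroupOfEquivOfLe hRst).symm.injective)

end Pool.Agent.Q216.IGP
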